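import Pool.Agent.K1H79.GE.StmA
import Pool.Agent.K1H79.QR.DiscR

/-! # The discriminant of the subfield generated by small integers (task 560) -/

set_option autoImplicit false

namespace Pool.Agent.K1H39.GE

open NumberField Pool.Agent.K1H79.GE IntermediateField Polynomial
open scoped Classical nonZeroDivisors

/-- discriminant bound from an integral generator with bounded absolute values -/
theorem disc_of_gen {F : Type} [Field F] [NumberField F] (θ : F) (hθ : ℚ⟮θ⟯ = ⊤) {B : ℝ}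
    (hw : ∀ w : InfinitePlace F, w θ ≤ B) (hI : IsIntegral ℤ θ) :
    |(discr F : ℝ)| ≤ (2 * B) ^ (Module.finrank ℚ F * (Module.finrank ℚ F - 1)) := by
  have h := Pool.Agent.K1H79.QR.disc_bound_frac rfl θ hθ (B := B) hw 1 (by
    intro b hb
    obtain ⟨d, hd⟩ : ∃ d : 𝓞 F, (d : F) = θ := ⟨⟨θ, hI⟩, rfl⟩
    refine ⟨d * b, ?_⟩
    rw [← hd, RingOfIntegers.coe_eq_algebraMap, RingOfIntegers.coe_eq_algebraMap,
      RingOfIntegers.coe_eq_algebraMap, map_mul])
  refine h.trans (le_of_eq ?_)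
  have h1 : Ideal.absNorm (((1 : (Ideal (𝓞 F))⁰) : Ideal (𝓞 F))) = 1 := by
    rw [OneMemClass.coe_one, map_one]
  rw [h1]
  simp

/-- a natural number which is not a root -/
theorem exists_nonroot (Q : ℂ[X]) (hQ : Q ≠ 0) {D : ℕ} (hD : Q.natDegree ≤ D) :
    ∃ t : ℕ, t ≤ D ∧ Q.eval (t : ℂ) ≠ 0 := by
  by_contra hc
  push Not at hc
  apply hQ
  refine Polynomial.eq_zero_of_natDegree_lt_card_of_eval_eq_zero' Q
    ((Finset.range (D + 1)).image (fun t : ℕ => (t : ℂ))) ?_ ?_
  · intro i hi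
    obtain ⟨t, ht, rfl⟩ := Finset.mem_image.1 hi
    exact hc t (by have := Finset.mem_range.1 ht; omega)
  · rw [Finset.card_image_of_injective _ Nat.cast_injective, Finset.card_range]
    omega

theorem place_natCast {F : Type} [Field F] [NumberField F] (w : InfinitePlace F) (t : ℕ) :
    w (t : F) = t := by
  rw [← w.norm_embedding_eq, map_natCast, Complex.norm_natCast]

/-- an integral generator of small house -/
theorem exists_gen {F : Type} [Field F] [NumberField F] {H : ℝ} (hH : 1 ≤ H)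
    (hsep : ∀ σ τ : F →ₐ[ℚ] ℂ, σ ≠ τ → ∃ x : F, IsIntegral ℤ x ∧ (∀ w : InfinitePlace F, w x ≤ H) ∧
      σ x ≠ τ x) {n : ℕ} (hn : Module.finrank ℚ F ≤ n) :
    ∃ θ : F, ℚ⟮θ⟯ = ⊤ ∧ IsIntegral ℤ θ ∧
      ∀ w : InfinitePlace F, w θ ≤ ((n ^ 2 : ℕ) : ℝ) * ((n ^ 4 + 1 : ℕ) : ℝ) ^ (n ^ 2) * H := by
  have hcardE : Fintype.card (F →ₐ[ℚ] ℂ) = Module.finrank ℚ F := AlgHom.card ℚ F ℂ
  set ι := (F →ₐ[ℚ] ℂ) × (F →ₐ[ℚ] ℂ) with hι
  have hN : Fintype.card ι ≤ n ^ 2 := by
    have h0 : Fintype.card ι = Module.finrank ℚ F * Module.finrank ℚ F := by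
      rw [← hcardE]
      exact Fintype.card_prod _ _
    rw [h0, sq]
    exact Nat.mul_le_mul hn hn
  set N := Fintype.card ι with hNdef
  have hx : ∀ p : ι, ∃ x : F, IsIntegral ℤ x ∧ (∀ w : InfinitePlace F, w x ≤ H) ∧
      (p.1 ≠ p.2 → p.1 x ≠ p.2 x) := by
    intro p
    by_cases hp : p.1 = p.2
    · refine ⟨0, isIntegral_zero, fun w => ?_, fun h => absurd hp h⟩
      rw [map_zero]
      linarith
    · obtain ⟨x, h1, h2, h3⟩ := hsep p.1 p.2 hp
      exact ⟨x, h1, h2, fun _ => h3⟩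
  choose x hxI hxH hxne using hx
  let e : ι ≃ Fin N := Fintype.equivFin ι
  let P : ι → ℂ[X] := fun p => ∑ q : ι, Polynomial.monomial (e q : ℕ) (p.1 (x q) - p.2 (x q))
  have hcoeff : ∀ p q : ι, (P p).coeff (e q) = p.1 (x q) - p.2 (x q) := by
    intro p q
    simp only [P, Polynomial.finsetSum_coeff, Polynomial.coeff_monomial]
    rw [Finset.sum_eq_single q]
    · rw [if_pos rfl]
    · intro r _ hr
      rw [if_neg]
      intro h
      exact hr (e.injective (Fin.ext h))
    · intro h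
      exact absurd (Finset.mem_univ _) h
  have hP0 : ∀ p : ι, p.1 ≠ p.2 → P p ≠ 0 := by
    intro p hp h0
    have := hcoeff p p
    rw [h0, Polynomial.coeff_zero] at this
    exact hxne p hp (sub_eq_zero.1 this.symm)
  have hPdeg : ∀ p : ι, (P p).natDegree ≤ N := by
    intro p
    apply Polynomial.natDegree_sum_le_of_forall_le
    intro q _
    exact (Polynomial.natDegree_monomial_le _).trans (e q).isLt.le
  let T : Finset ι := Finset.univ.filter (fun p => p.1 ≠ p.2)
  let Q : ℂ[X] := ∏ p ∈ T, P p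
  have hQ0 : Q ≠ 0 := Finset.prod_ne_zero_iff.2 (fun p hp => hP0 p (Finset.mem_filter.1 hp).2)
  have hQdeg : Q.natDegree ≤ n ^ 4 := by
    refine (Polynomial.natDegree_prod_le _ _).trans ?_
    refine (Finset.sum_le_sum (fun p _ => hPdeg p)).trans ?_
    rw [Finset.sum_const, smul_eq_mul]
    have h1 : T.card ≤ N := Finset.card_le_univ _
    calc T.card * N ≤ n ^ 2 * n ^ 2 := Nat.mul_le_mul (h1.trans hN) hN
      _ = n ^ 4 := by ring
  obtain ⟨t, ht, hQt⟩ := exists_nonroot Q hQ0 hQdeg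
  let θ : F := ∑ q : ι, (t : F) ^ (e q : ℕ) * x q
  have hinj : Function.Injective (fun φ : F →ₐ[ℚ] ℂ => φ θ) := by
    intro σ τ hστ
    by_contra hne
    apply hQt
    rw [Polynomial.eval_prod]
    apply Finset.prod_eq_zero (i := (σ, τ))
    · exact Finset.mem_filter.2 ⟨Finset.mem_univ _, hne⟩
    · simp only [P, Polynomial.eval_finsetSum, Polynomial.eval_monomial]
      have h1 : σ θ = τ θ := hστ
      simp only [θ, map_sum, map_mul, map_pow, map_natCast] at h1
      rw [← sub_eq_zero, ← Finset.sum_sub_distrib] at h1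
      rw [← h1]
      apply Finset.sum_congr rfl
      intro q _
      ring
  refine ⟨θ, ?_, ?_, ?_⟩
  · exact (Field.primitive_element_iff_algHom_eq_of_eval' ℚ ℂ
      (fun y => IsAlgClosed.splits _) θ).2 hinj
  · apply IsIntegral.sum
    intro q _
    exact ((isIntegral_natCast t).pow _).mul (hxI q)
  · intro w
    have h1 : w θ ≤ ∑ q : ι, w ((t : F) ^ (e q : ℕ) * x q) := by
      have := w.1.sum_le (s := Finset.univ) (f := fun q : ι => (t : F) ^ (e q : ℕ) * x q)
      exact this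
    refine h1.trans ?_
    have h2 : ∀ q : ι, w ((t : F) ^ (e q : ℕ) * x q) ≤ ((n ^ 4 + 1 : ℕ) : ℝ) ^ (n ^ 2) * H := by
      intro q
      rw [map_mul, map_pow, place_natCast]
      refine mul_le_mul ?_ (hxH q w) (apply_nonneg _ _) (by positivity)
      calc (t : ℝ) ^ (e q : ℕ) ≤ ((n ^ 4 + 1 : ℕ) : ℝ) ^ (e q : ℕ) := by
            apply pow_le_pow_left₀ (Nat.cast_nonneg _)
            exact_mod_cast ht.trans (Nat.le_succ _)
        _ ≤ _ := by
            apply pow_le_pow_right₀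
            · exact_mod_cast Nat.le_add_left 1 (n ^ 4)
            · exact ((e q).isLt.le).trans hN
    refine (Finset.sum_le_sum (fun q _ => h2 q)).trans ?_
    rw [Finset.sum_const, Finset.card_univ, nsmul_eq_mul, mul_assoc]
    apply mul_le_mul_of_nonneg_right _ (by positivity)
    exact_mod_cast hN

theorem t_SUB : S_SUB := by
  intro n
  set b : ℝ := ((n ^ 2 : ℕ) : ℝ) * ((n ^ 4 + 1 : ℕ) : ℝ) ^ (n ^ 2) with hb
  refine ⟨(2 * b + 2) ^ (n ^ 2), by positivity, ?_⟩
  intro L _ _ hL H hH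
  have hn : 0 < n := by
    rw [← hL]
    exact Module.finrank_pos
  have hFn : Module.finrank ℚ (Hs L H) ≤ n := by
    rw [← hL]
    exact Submodule.finrank_le (Subalgebra.toSubmodule (Hs L H).toSubalgebra)
  have hsep : ∀ σ τ : (Hs L H) →ₐ[ℚ] ℂ, σ ≠ τ → ∃ x : Hs L H, IsIntegral ℤ x ∧
      (∀ w : InfinitePlace (Hs L H), w x ≤ H) ∧ σ x ≠ τ x := by
    intro σ τ hne
    by_contra hc
    push Not at hc
    apply hne
    refine algHom_ext_of_eq_adjoin ℚ (S := Hs L H)
      (s := {x : L | IsIntegral ℤ x ∧ ∀ w : InfinitePlace L, w x ≤ H}) rfl ?_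
    intro x hx
    apply hc
    · have := hx.1
      exact (isIntegral_algebraMap_iff (algebraMap (Hs L H) L).injective).1 this
    · intro v
      obtain ⟨w, hw⟩ := InfinitePlace.comap_surjective (K := L) v
      have h1 := hx.2 w
      rw [← hw]
      rw [InfinitePlace.comap_apply]
      exact h1
  obtain ⟨θ, h1, h2, h3⟩ := exists_gen hH hsep hFn
  have h4 := disc_of_gen θ h1 h3 h2
  refine h4.trans ?_
  have hb0 : 0 ≤ b := by positivity
  have hbase : 1 ≤ (2 * b + 2) * H := by nlinarith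
  set m := Module.finrank ℚ (Hs L H)
  have hm : m * (m - 1) ≤ n ^ 2 := by
    rw [sq]
    exact Nat.mul_le_mul hFn ((Nat.sub_le _ _).trans hFn)
  calc (2 * (b * H)) ^ (m * (m - 1)) ≤ ((2 * b + 2) * H) ^ (m * (m - 1)) := by
        apply pow_le_pow_left₀ (by positivity)
        nlinarith
    _ ≤ ((2 * b + 2) * H) ^ (n ^ 2) := pow_le_pow_right₀ hbase hm
    _ = (2 * b + 2) ^ (n ^ 2) * H ^ (n ^ 2) := mul_pow _ _ _
    _ ≤ _ := by
        apply mul_le_mul_of_nonneg_left _ (by positivity)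
        rw [← Real.rpow_natCast]
        apply Real.rpow_le_rpow_of_exponent_le hH
        have h5 : ((n ^ 2 : ℕ) : ℝ) ≤ (2 : ℝ) ^ (n ^ 2) := by
          exact_mod_cast (Nat.lt_two_pow_self).le
        refine h5.trans ?_
        apply pow_le_pow_left₀ (by norm_num)
        linarith

end Pool.Agent.K1H39.GE
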